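import Pool.Agent.Helper28.NF.Stmts

/-!
# Dimension free Beck-Fiala, module 9: the ranks
-/

namespace Pool.Agent.Helper55.NF

open Finset MeasureTheory Pool.Agent.Helper28.NF
open scoped Classical

noncomputable section

variable {ι κ : Type}

/-- one element is raised by one -/
def up (k : ι → ℕ) (u : ι) : ι → ℕ := Function.update k u (k u + 1)

lemma up_self (k : ι → ℕ) (u : ι) : up k u u = k u + 1 := by
  unfold up
  rw [Function.update_self]

lemma up_ne (k : ι → ℕ) {u v : ι} (h : v ≠ u) : up k u v = k v := by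
  unfold up
  rw [Function.update_of_ne h]

lemma card_raise (T : Finset ι) (k : ι → ℕ) (u : ι) (l : ℕ) :
    #(T.filter (fun v => l ≤ up k u v))
      = #(T.filter (fun v => l ≤ k v)) + (if l = k u + 1 ∧ u ∈ T then 1 else 0) := by
  by_cases hl : l = k u + 1 ∧ u ∈ T
  · obtain ⟨h1, h2⟩ := hl
    rw [if_pos ⟨h1, h2⟩]
    have h3 : T.filter (fun v => l ≤ up k u v) = insert u (T.filter (fun v => l ≤ k v)) := by
      ext v
      rw [mem_insert, mem_filter, mem_filter]
      by_cases hv : v = u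
      · rw [hv, up_self]
        constructor
        · intro _
          exact Or.inl rfl
        · intro _
          exact ⟨h2, by omega⟩
      · rw [up_ne k hv]
        constructor
        · intro h
          exact Or.inr h
        · rintro (h | h)
          · exact absurd h hv
          · exact h
    rw [h3, card_insert_of_notMem]
    rw [mem_filter]
    rintro ⟨_, h⟩
    omega
  · rw [if_neg hl, add_zero]
    congr 1
    apply filter_congr
    intro v hv
    by_cases hvu : v = u
    · rw [hvu] at hv ⊢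
      rw [up_self]
      constructor
      · intro h
        have : l ≠ k u + 1 := fun h' => hl ⟨h', hv⟩
        omega
      · intro h
        omega
    · rw [up_ne k hvu]

lemma nn_raise (S : κ → Finset ι) (k : ι → ℕ) (u : ι) (l : ℕ) (j : κ) :
    nn S (up k u) l j = nn S k l j + (if l = k u + 1 ∧ u ∈ S j then 1 else 0) := by
  unfold nn
  exact card_raise (S j) k u l

lemma nn_raise_ne (S : κ → Finset ι) (k : ι → ℕ) (u : ι) (l : ℕ) (hl : l ≠ k u + 1) (j : κ) :
    nn S (up k u) l j = nn S k l j := by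
  rw [nn_raise, if_neg (fun h => hl h.1), add_zero]

/-! ## profile -/

lemma prof_pos {m : ℝ} (hm : 0 < m) (x : ℝ) : 0 < prof m x := by
  unfold prof
  split_ifs with h
  · norm_num
  · have : 0 < x := by linarith [not_le.mp h]
    positivity

lemma prof_anti {m : ℝ} (hm : 0 < m) {x y : ℝ} (hxy : x ≤ y) : prof m y ≤ prof m x := by
  unfold prof
  by_cases hy : y ≤ m
  · rw [if_pos hy, if_pos (hxy.trans hy)]
  · rw [if_neg hy]
    have hy' : m < y := not_le.mp hy
    have hy0 : 0 < y := hm.trans hy'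
    by_cases hx : x ≤ m
    · rw [if_pos hx]
      apply pow_le_one₀ (by positivity)
      rw [div_le_one hy0]
      exact hy'.le
    · rw [if_neg hx]
      have hx0 : 0 < x := hm.trans (not_le.mp hx)
      apply pow_le_pow_left₀ (by positivity)
      exact div_le_div_of_nonneg_left hm.le hx0 hxy

lemma prof_log (m n : ℕ) (hm : 1 ≤ m) :
    Real.log (prof (m : ℝ) (n : ℝ) / prof (m : ℝ) ((n + 1 : ℕ) : ℝ)) ≤ 8 / (m : ℝ) := by
  have hm0 : (0 : ℝ) < m := by exact_mod_cast hm
  rcases le_or_gt (n + 1) m with h | h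
  · have h1 : ((n + 1 : ℕ) : ℝ) ≤ m := by exact_mod_cast h
    have h2 : (n : ℝ) ≤ m := by exact_mod_cast (by omega : n ≤ m)
    unfold prof
    rw [if_pos h1, if_pos h2, div_one, Real.log_one]
    positivity
  · have hn : m ≤ n := by omega
    have hn0 : (0 : ℝ) < n := lt_of_lt_of_le hm0 (by exact_mod_cast hn)
    have h1 : ¬ ((n + 1 : ℕ) : ℝ) ≤ m := by
      rw [not_le]
      exact_mod_cast h
    have h3 : prof (m : ℝ) (n : ℝ) = ((m : ℝ) / n) ^ 8 := by
      unfold prof
      split_ifs with h4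
      · have h5 : n = m := le_antisymm (by exact_mod_cast h4) hn
        rw [h5, div_self (ne_of_gt hm0), one_pow]
      · rfl
    have h4 : prof (m : ℝ) ((n + 1 : ℕ) : ℝ) = ((m : ℝ) / ((n + 1 : ℕ) : ℝ)) ^ 8 := by
      unfold prof
      rw [if_neg h1]
    have h5 : prof (m : ℝ) (n : ℝ) / prof (m : ℝ) ((n + 1 : ℕ) : ℝ) = (1 + 1 / (n : ℝ)) ^ 8 := by
      rw [h3, h4, ← div_pow]
      congr 1
      push_cast
      field_simp
    rw [h5, Real.log_pow]
    have h6 : Real.log (1 + 1 / (n : ℝ)) ≤ 1 / (n : ℝ) := by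
      have := Real.log_le_sub_one_of_pos (show (0 : ℝ) < 1 + 1 / (n : ℝ) by positivity)
      linarith
    have h7 : 1 / (n : ℝ) ≤ 1 / (m : ℝ) :=
      one_div_le_one_div_of_le hm0 (by exact_mod_cast hn)
    have h8 : (8 : ℝ) / m = 8 * (1 / m) := by ring
    rw [h8]
    push_cast
    linarith

/-! ## weights -/

lemma bb_raise_self (k : ι → ℕ) (u : ι) :
    bb (up k u) (k u + 1) = Function.update (bb k (k u + 1)) u 1 := by
  funext v
  by_cases hv : v = u
  · rw [hv, Function.update_self]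
    unfold bb
    rw [up_self, if_pos le_rfl, Nat.sub_self, pow_zero]
  · rw [Function.update_of_ne hv]
    unfold bb
    rw [up_ne k hv]

lemma bb_self (k : ι → ℕ) (u : ι) : bb k (k u + 1) u = -(1 / 160000) := by
  unfold bb
  rw [if_neg (by omega), if_pos rfl]

/-- the cost of a raise in the Cauchy potential -/
def cz (K l : ℕ) : ℝ :=
  (if l ≤ K then 3 / 4 * (1 / 4) ^ (K - l) else 0) + (if l = K + 2 then 1 / 160000 else 0)

lemma bb_raise_u (k : ι → ℕ) (u : ι) (l : ℕ) (hl : l ≠ k u + 1) :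
    bb k l u - bb (up k u) l u = cz (k u) l := by
  unfold bb cz
  rw [up_self]
  by_cases h1 : l ≤ k u
  · rw [if_pos h1, if_pos (by omega), if_pos h1, if_neg (by omega)]
    have h2 : k u + 1 - l = (k u - l) + 1 := by omega
    rw [h2, pow_succ]
    ring
  · rw [if_neg h1, if_neg (by omega), if_neg (by omega), if_neg h1]
    by_cases h2 : l = k u + 2
    · rw [if_pos (by omega), if_pos h2]
      ring
    · rw [if_neg (by omega), if_neg h2]
      ring

lemma cz_nonneg (K l : ℕ) : 0 ≤ cz K l := by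
  unfold cz
  apply add_nonneg
  · split_ifs
    · positivity
    · exact le_rfl
  · split_ifs
    · norm_num
    · exact le_rfl

lemma bb_raise_ne (k : ι → ℕ) (u : ι) (l : ℕ) {v : ι} (hv : v ≠ u) :
    bb (up k u) l v = bb k l v := by
  unfold bb
  rw [up_ne k hv]

lemma bb_raise_le (k : ι → ℕ) (u : ι) (l : ℕ) (hl : l ≠ k u + 1) (v : ι) :
    bb (up k u) l v ≤ bb k l v := by
  by_cases hv : v = u
  · rw [hv]
    have h1 := bb_raise_u k u l hl
    have h2 := cz_nonneg (k u) l
    linarith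
  · rw [bb_raise_ne k u l hv]

lemma bb_raise_sum [Fintype ι] (k : ι → ℕ) (u : ι) (l : ℕ) (hl : l ≠ k u + 1) :
    ∑ v, (bb k l v - bb (up k u) l v) = cz (k u) l := by
  rw [Finset.sum_eq_single u]
  · exact bb_raise_u k u l hl
  · intro v _ hv
    rw [bb_raise_ne k u l hv, sub_self]
  · intro h
    exact absurd (Finset.mem_univ u) h

lemma ww_raise_ne (H : ℕ) (k : ι → ℕ) (u : ι) (l : ℕ) {v : ι} (hv : v ≠ u) :
    ww H (up k u) l v = ww H k l v := by
  unfold ww
  rw [up_ne k hv]

lemma ww_nonneg (H : ℕ) (k : ι → ℕ) (l : ℕ) (v : ι) : 0 ≤ ww H k l v := by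
  unfold ww
  split_ifs
  · positivity
  · exact le_rfl

lemma ww_raise_self (H : ℕ) (k : ι → ℕ) (u : ι) :
    ww H (up k u) (k u + 1) = Function.update (ww H k (k u + 1)) u (ww H k (k u + 1) u + 1) := by
  funext v
  by_cases hv : v = u
  · rw [hv, Function.update_self]
    unfold ww
    rw [up_self, if_pos le_rfl, if_neg (by omega), Nat.sub_self, Nat.zero_sub, pow_zero, zero_add]
  · rw [Function.update_of_ne hv]
    exact ww_raise_ne H k u _ hv

lemma ww_raise_far (H : ℕ) (k : ι → ℕ) (u : ι) (l : ℕ) (hl : l + H ≤ k u) :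
    ww H (up k u) l = Function.update (ww H k l) u (ww H k l u / 4) := by
  funext v
  by_cases hv : v = u
  · rw [hv, Function.update_self]
    unfold ww
    rw [up_self, if_pos (by omega), if_pos (by omega)]
    have h2 : k u + 1 - l - H = (k u - l - H) + 1 := by omega
    rw [h2, pow_succ]
    ring
  · rw [Function.update_of_ne hv]
    exact ww_raise_ne H k u _ hv

lemma ww_raise_near (H : ℕ) (k : ι → ℕ) (u : ι) (l : ℕ) (hl : ¬ l + H ≤ k u)
    (hl2 : l ≠ k u + 1) : ww H (up k u) l = ww H k l := by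
  funext v
  by_cases hv : v = u
  · rw [hv]
    unfold ww
    rw [up_self]
    by_cases h1 : l ≤ k u
    · rw [if_pos h1, if_pos (by omega)]
      have h2 : k u + 1 - l - H = 0 := by omega
      have h3 : k u - l - H = 0 := by omega
      rw [h2, h3]
    · rw [if_neg h1, if_neg (by omega)]
  · exact ww_raise_ne H k u _ hv

/-! ## the functional -/

variable [Fintype ι] [Fintype κ]

/-- the functional at one level -/
def UU (S : κ → Finset ι) (t H g : ℕ) (B m : ℝ) (k : ι → ℕ) (l : ℕ) : ℝ :=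
  Real.log (Zn S (LL S t m k l) (bb k l)) + (#(univ.filter (fun v => l ≤ k v)) : ℝ) / 400
    - B * LD S (RR S t B m k l) (ww H k l)
    - 1 / 100 * ∑ j, min (nn S k l j : ℝ) (m ^ 2 * (nn S k (l + g) j : ℝ))

/-- the functional -/
def WW (S : κ → Finset ι) (t H g : ℕ) (B m : ℝ) (N : ℕ) (k : ι → ℕ) : ℝ :=
  ∑ l ∈ Icc 1 (N + 1), (400 : ℝ) ^ l * UU S t H g B m k l

lemma LL_pos (S : κ → Finset ι) {t : ℕ} (ht : 1 ≤ t) {m : ℝ} (hm : 0 < m) (k : ι → ℕ) (l : ℕ)
    (j : κ) : 0 < LL S t m k l j := by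
  unfold LL
  have h1 := prof_pos hm (nn S k l j : ℝ)
  have h2 : (0 : ℝ) < t := by exact_mod_cast ht
  positivity

lemma RR_pos (S : κ → Finset ι) {t : ℕ} (ht : 1 ≤ t) {B m : ℝ} (hB : 0 < B) (hm : 0 < m)
    (k : ι → ℕ) (l : ℕ) (j : κ) : 0 < RR S t B m k l j := by
  unfold RR
  have h1 := prof_pos hm (nn S k l j : ℝ)
  have h2 : (0 : ℝ) < t := by exact_mod_cast ht
  positivity

lemma log_Zn (hINT : ST_INT) (S : κ → Finset ι) (L : κ → ℝ) (b : ι → ℝ) (hL : ∀ j, 0 < L j) :
    Real.log (Zn S L b) = Real.log (ZZ S L b) - Real.log (ZZ S L (fun _ => 0)) := by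
  unfold Zn
  exact Real.log_div (ne_of_gt (hINT ι κ S L b hL).2.1)
    (ne_of_gt (hINT ι κ S L (fun _ => 0) hL).2.1)

/-- cost of one level away from the raised one -/
def cl (H : ℕ) (B : ℝ) (K l : ℕ) : ℝ := cz K l + (if l + H ≤ K then B * Real.log 4 else 0)

lemma cl_nonneg (H : ℕ) {B : ℝ} (hB : 0 ≤ B) (K l : ℕ) : 0 ≤ cl H B K l := by
  unfold cl
  apply add_nonneg (cz_nonneg K l)
  split_ifs
  · exact mul_nonneg hB (Real.log_nonneg (by norm_num))
  · exact le_rfl

lemma UU_ne (hINT : ST_INT) (hZC : ST_ZCOST) (hLD : ST_LD) (S : κ → Finset ι) {t : ℕ}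
    (ht : 1 ≤ t) (H g : ℕ) {B m : ℝ} (hB : 0 < B) (hm : 0 < m) (k : ι → ℕ) (u : ι) (l : ℕ)
    (hl : l ≠ k u + 1) :
    UU S t H g B m (up k u) l ≤ UU S t H g B m k l + cl H B (k u) l := by
  have hLeq : LL S t m (up k u) l = LL S t m k l := by
    funext j
    unfold LL
    rw [nn_raise_ne S k u l hl]
  have hReq : RR S t B m (up k u) l = RR S t B m k l := by
    funext j
    unfold RR
    rw [nn_raise_ne S k u l hl]
  have hLp := LL_pos S ht hm k l
  have hRp := RR_pos S ht hB hm k l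
  -- partition function
  have h1 : Real.log (Zn S (LL S t m k l) (bb (up k u) l))
      ≤ Real.log (Zn S (LL S t m k l) (bb k l)) + cz (k u) l := by
    rw [log_Zn hINT S _ _ hLp, log_Zn hINT S _ _ hLp]
    have h2 := ((hZC ι κ S (LL S t m k l) (bb (up k u) l) hLp).1 (bb k l)
      (bb_raise_le k u l hl)).2
    rw [bb_raise_sum k u l hl] at h2
    have h3 := (hINT ι κ S (LL S t m k l) (bb (up k u) l) hLp).2.1
    have h4 := (hINT ι κ S (LL S t m k l) (bb k l) hLp).2.1
    have h5 := Real.log_le_log h3 h2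
    rw [Real.log_mul (Real.exp_ne_zero _) (ne_of_gt h4), Real.log_exp] at h5
    linarith
  -- number
  have h2 : (#(univ.filter (fun v => l ≤ up k u v)) : ℝ)
      = (#(univ.filter (fun v => l ≤ k v)) : ℝ) := by
    rw [card_raise, if_neg (fun h => hl h.1), add_zero]
  -- determinant
  have h3 : LD S (RR S t B m k l) (ww H k l) ≤ LD S (RR S t B m k l) (ww H (up k u) l)
      + (if l + H ≤ k u then Real.log 4 else 0) := by
    by_cases h4 : l + H ≤ k u
    · rw [if_pos h4, ww_raise_far H k u l h4]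
      have h5 : 0 < ww H k l u := by
        unfold ww
        rw [if_pos (by omega)]
        positivity
      have h6 := (hLD ι κ S (RR S t B m k l) (ww H k l) hRp (ww_nonneg H k l)).2.2.1 u
        (ww H k l u / 4) (by positivity) (by linarith)
      have h7 : ww H k l u / (ww H k l u / 4) = 4 := by
        field_simp
      rw [h7] at h6
      exact h6
    · rw [if_neg h4, add_zero, ww_raise_near H k u l h4 hl]
  have h4 : ∑ j, min (nn S k l j : ℝ) (m ^ 2 * (nn S k (l + g) j : ℝ))
      ≤ ∑ j, min (nn S (up k u) l j : ℝ) (m ^ 2 * (nn S (up k u) (l + g) j : ℝ)) := by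
    apply Finset.sum_le_sum
    intro j _
    apply min_le_min
    · rw [nn_raise]
      push_cast
      split_ifs <;> simp
    · apply mul_le_mul_of_nonneg_left _ (by positivity)
      rw [nn_raise]
      push_cast
      split_ifs <;> simp
  unfold UU
  rw [hLeq, hReq, h2]
  unfold cl
  have h5 : B * LD S (RR S t B m k l) (ww H k l)
      ≤ B * LD S (RR S t B m k l) (ww H (up k u) l)
        + (if l + H ≤ k u then B * Real.log 4 else 0) := by
    have h6 := mul_le_mul_of_nonneg_left h3 hB.le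
    rw [mul_add] at h6
    by_cases h7 : l + H ≤ k u
    · rw [if_pos h7] at h6 ⊢
      exact h6
    · rw [if_neg h7] at h6 ⊢
      rw [mul_zero] at h6
      exact h6
  linarith

/-- the raised level -/
lemma UU_self (hINT : ST_INT) (hZC : ST_ZCOST) (hLD : ST_LD) (S : κ → Finset ι) {t : ℕ}
    (ht : 1 ≤ t) (hdeg : ∀ v, #(univ.filter (fun j => v ∈ S j)) ≤ t) (H g : ℕ) (hg : 1 ≤ g)
    {B : ℝ} (hB : 0 < B) (m : ℕ) (hm : 1 ≤ m) (hmt : 24000 * t ≤ m) (k : ι → ℕ) (u : ι) :
    ∃ a b c : ℝ, UU S t H g B m (up k u) (k u + 1) ≤ UU S t H g B m k (k u + 1) + 1 / 400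
        + 1 / 2000 - a - b - c ∧ 0 ≤ a ∧ 0 ≤ b ∧ 0 ≤ c ∧
      (¬ Happy S (LL S t m k (k u + 1)) (bb k (k u + 1)) u → 1 / 70 ≤ a) ∧
      b = B * Real.log (1 + lev S (RR S t B m k (k u + 1)) (ww H k (k u + 1)) u) ∧
      ((∃ j, u ∈ S j ∧ nn S k (k u + 1) j < m ^ 2 * nn S k (k u + 1 + g) j) → 1 / 100 ≤ c) := by
  have hm0 : (0 : ℝ) < m := by exact_mod_cast hm
  have ht0 : (0 : ℝ) < t := by exact_mod_cast ht
  set l := k u + 1 with hl
  have hLp := LL_pos S ht hm0 k l
  have hLp' := LL_pos S ht hm0 (up k u) l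
  have hRp := RR_pos S ht hB hm0 k l
  have hRp' := RR_pos S ht hB hm0 (up k u) l
  have hnn : ∀ j, (nn S k l j : ℝ) ≤ (nn S (up k u) l j : ℝ) := by
    intro j
    rw [nn_raise]
    push_cast
    split_ifs <;> simp
  have hLle : ∀ j, LL S t m (up k u) l j ≤ LL S t m k l j := by
    intro j
    unfold LL
    exact mul_le_mul_of_nonneg_left (prof_anti hm0 (hnn j)) (by positivity)
  have hRle : ∀ j, RR S t B m (up k u) l j ≤ RR S t B m k l j := by
    intro j
    unfold RR
    exact mul_le_mul_of_nonneg_left (prof_anti hm0 (hnn j)) (by positivity)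
  -- stiffness
  have hlog : ∑ j, Real.log (LL S t m k l j / LL S t m (up k u) l j) ≤ t * (8 / m) := by
    have h1 : ∀ j, Real.log (LL S t m k l j / LL S t m (up k u) l j)
        ≤ if u ∈ S j then (8 / m : ℝ) else 0 := by
      intro j
      have h2 : LL S t m k l j / LL S t m (up k u) l j
          = prof m (nn S k l j) / prof m (nn S (up k u) l j) := by
        unfold LL
        have := prof_pos hm0 (nn S (up k u) l j : ℝ)
        field_simp
      rw [h2, nn_raise]
      by_cases h3 : u ∈ S j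
      · rw [if_pos ⟨hl, h3⟩, if_pos h3]
        exact prof_log m (nn S k l j) hm
      · rw [if_neg (fun h => h3 h.2), if_neg h3, add_zero,
          div_self (ne_of_gt (prof_pos hm0 _)), Real.log_one]
    refine (Finset.sum_le_sum (fun j _ => h1 j)).trans ?_
    rw [← Finset.sum_filter, Finset.sum_const, nsmul_eq_mul]
    apply mul_le_mul_of_nonneg_right _ (by positivity)
    exact_mod_cast hdeg u
  have h12 : 3 / 2 * (t * (8 / m) : ℝ) ≤ 1 / 2000 := by
    have h1 : (24000 : ℝ) * t ≤ m := by exact_mod_cast hmt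
    have h2 : 3 / 2 * (t * (8 / m) : ℝ) = 12 * t / m := by ring
    rw [h2, div_le_iff₀ hm0]
    linarith
  -- partition function
  have hZ := hZC ι κ S (LL S t m k l) (bb k l) hLp
  have hZ1 := hZC ι κ S (LL S t m k l) (bb (up k u) l) hLp
  have hZn := hZ1.2.2 (LL S t m (up k u) l) hLp' hLle
  have hpos1 := (hINT ι κ S (LL S t m k l) (bb k l) hLp).2.1
  have hpos2 := (hINT ι κ S (LL S t m k l) (bb (up k u) l) hLp).2.1
  have hpos0 := (hINT ι κ S (LL S t m k l) (fun _ => 0) hLp).2.1
  have hpos3 := (hINT ι κ S (LL S t m (up k u) l) (bb (up k u) l) hLp').2.1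
  have hpos4 := (hINT ι κ S (LL S t m (up k u) l) (fun _ => 0) hLp').2.1
  have hZlog : Real.log (Zn S (LL S t m (up k u) l) (bb (up k u) l))
      ≤ 1 / 2000 + Real.log (Zn S (LL S t m k l) (bb (up k u) l)) := by
    have h1 : 0 < Zn S (LL S t m (up k u) l) (bb (up k u) l) := div_pos hpos3 hpos4
    have h2 : 0 < Zn S (LL S t m k l) (bb (up k u) l) := div_pos hpos2 hpos0
    have h3 := Real.log_le_log h1 hZn
    rw [Real.log_mul (Real.exp_ne_zero _) (ne_of_gt h2), Real.log_exp] at h3
    have h4 : 3 / 2 * ∑ j, Real.log (LL S t m k l j / LL S t m (up k u) l j)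
        ≤ 3 / 2 * (t * (8 / m) : ℝ) := mul_le_mul_of_nonneg_left hlog (by norm_num)
    linarith
  have hbeq : bb (up k u) l = Function.update (bb k l) u 1 := bb_raise_self k u
  have hbu : bb k l u = -(1 / 160000) := bb_self k u
  have hmono : ZZ S (LL S t m k l) (bb (up k u) l) ≤ ZZ S (LL S t m k l) (bb k l) := by
    apply (hZ.1 (bb (up k u) l) _).1
    intro v
    rw [hbeq]
    by_cases hv : v = u
    · rw [hv, Function.update_self, hbu]
      norm_num
    · rw [Function.update_of_ne hv]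
  have hunh : ¬ Happy S (LL S t m k l) (bb k l) u →
      ZZ S (LL S t m k l) (bb (up k u) l)
        ≤ Real.exp (-(1 / 70)) * ZZ S (LL S t m k l) (bb k l) := by
    intro h
    rw [hbeq]
    exact hZ.2.1 u (by rw [hbu]; norm_num) h
  -- determinant
  have hLD1 := hLD ι κ S (RR S t B m k l) (ww H k l) hRp (ww_nonneg H k l)
  have hLD2 := hLD ι κ S (RR S t B m k l) (ww H (up k u) l) hRp (ww_nonneg H (up k u) l)
  have hlev0 := hLD1.1 u
  have hdet : LD S (RR S t B m k l) (ww H k l)
      + Real.log (1 + lev S (RR S t B m k l) (ww H k l) u)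
      ≤ LD S (RR S t B m (up k u) l) (ww H (up k u) l) := by
    have h1 := hLD2.2.2.2.1 (RR S t B m (up k u) l) hRp' hRle
    have h2 := hLD1.2.1 u 1 (by norm_num)
    rw [one_mul] at h2
    rw [ww_raise_self H k u] at h1
    rw [← h2, ww_raise_self H k u]
    exact h1
  refine ⟨if Happy S (LL S t m k l) (bb k l) u then 0 else 1 / 70,
    B * Real.log (1 + lev S (RR S t B m k l) (ww H k l) u),
    if (∃ j, u ∈ S j ∧ nn S k l j < m ^ 2 * nn S k (l + g) j) then 1 / 100 else 0,
    ?_, ?_, ?_, ?_, ?_, rfl, ?_⟩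
  · -- main inequality
    have ha : Real.log (Zn S (LL S t m k l) (bb (up k u) l))
        ≤ Real.log (Zn S (LL S t m k l) (bb k l))
          - (if Happy S (LL S t m k l) (bb k l) u then 0 else 1 / 70) := by
      rw [log_Zn hINT S _ _ hLp, log_Zn hINT S _ _ hLp]
      by_cases hh : Happy S (LL S t m k l) (bb k l) u
      · rw [if_pos hh]
        have := Real.log_le_log hpos2 hmono
        linarith
      · rw [if_neg hh]
        have h1 := Real.log_le_log hpos2 (hunh hh)
        rw [Real.log_mul (Real.exp_ne_zero _) (ne_of_gt hpos1), Real.log_exp] at h1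
        linarith
    have hb : B * LD S (RR S t B m k l) (ww H k l)
        + B * Real.log (1 + lev S (RR S t B m k l) (ww H k l) u)
        ≤ B * LD S (RR S t B m (up k u) l) (ww H (up k u) l) := by
      rw [← mul_add]
      exact mul_le_mul_of_nonneg_left hdet hB.le
    have hcard : (#(univ.filter (fun v => l ≤ up k u v)) : ℝ)
        = (#(univ.filter (fun v => l ≤ k v)) : ℝ) + 1 := by
      rw [card_raise, if_pos ⟨hl, Finset.mem_univ u⟩]
      push_cast
      ring
    have hlg : l + g ≠ k u + 1 := by omega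
    have hc : ∑ j, min (nn S k l j : ℝ) ((m : ℝ) ^ 2 * (nn S k (l + g) j : ℝ))
        + 100 * (if (∃ j, u ∈ S j ∧ nn S k l j < m ^ 2 * nn S k (l + g) j) then 1 / 100 else 0)
        ≤ ∑ j, min (nn S (up k u) l j : ℝ) ((m : ℝ) ^ 2 * (nn S (up k u) (l + g) j : ℝ)) := by
      have hge : ∀ j, min (nn S k l j : ℝ) ((m : ℝ) ^ 2 * (nn S k (l + g) j : ℝ))
          ≤ min (nn S (up k u) l j : ℝ) ((m : ℝ) ^ 2 * (nn S (up k u) (l + g) j : ℝ)) := by
        intro j
        rw [nn_raise_ne S k u (l + g) hlg]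
        exact min_le_min (hnn j) le_rfl
      split_ifs with hex
      · obtain ⟨j0, hj0, hj1⟩ := hex
        rw [← Finset.add_sum_erase _ _ (Finset.mem_univ j0),
          ← Finset.add_sum_erase _ (fun j => min (nn S (up k u) l j : ℝ)
            ((m : ℝ) ^ 2 * (nn S (up k u) (l + g) j : ℝ))) (Finset.mem_univ j0)]
        have h1 : ∑ j ∈ univ.erase j0, min (nn S k l j : ℝ) ((m : ℝ) ^ 2 * (nn S k (l + g) j : ℝ))
            ≤ ∑ j ∈ univ.erase j0, min (nn S (up k u) l j : ℝ)
              ((m : ℝ) ^ 2 * (nn S (up k u) (l + g) j : ℝ)) :=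
          Finset.sum_le_sum (fun j _ => hge j)
        have h2 : ((nn S k l j0 : ℝ) + 1) ≤ (m : ℝ) ^ 2 * (nn S k (l + g) j0 : ℝ) := by
          exact_mod_cast hj1
        have h3 : min (nn S k l j0 : ℝ) ((m : ℝ) ^ 2 * (nn S k (l + g) j0 : ℝ))
            = (nn S k l j0 : ℝ) := min_eq_left (by linarith)
        have h4 : (nn S (up k u) l j0 : ℝ) = (nn S k l j0 : ℝ) + 1 := by
          rw [nn_raise, if_pos ⟨hl, hj0⟩]
          push_cast
          ring
        have h5 : min (nn S (up k u) l j0 : ℝ) ((m : ℝ) ^ 2 * (nn S (up k u) (l + g) j0 : ℝ))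
            = (nn S k l j0 : ℝ) + 1 := by
          rw [nn_raise_ne S k u (l + g) hlg, h4]
          exact min_eq_left h2
        simp only [h3, h5]
        linarith
      · rw [mul_zero, add_zero]
        exact Finset.sum_le_sum (fun j _ => hge j)
    unfold UU
    rw [hcard]
    linarith
  · split_ifs
    · exact le_rfl
    · norm_num
  · apply mul_nonneg hB.le
    apply Real.log_nonneg
    linarith
  · split_ifs
    · norm_num
    · exact le_rfl
  · intro h
    rw [if_neg h]
  · intro h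
    rw [if_pos h]

/-! ## numbers -/

lemma geo1 (i : ℕ) : ∑ l ∈ range i, (400 : ℝ) ^ l * (1 / 4) ^ (i - 1 - l) ≤ 4 / 1599 * 400 ^ i := by
  induction i with
  | zero => norm_num
  | succ i ih =>
    have h1 : ∑ l ∈ range (i + 1), (400 : ℝ) ^ l * (1 / 4) ^ (i + 1 - 1 - l)
        = 1 / 4 * ∑ l ∈ range i, (400 : ℝ) ^ l * (1 / 4) ^ (i - 1 - l) + 400 ^ i := by
      rw [Finset.sum_range_succ, Finset.mul_sum]
      congr 1
      · apply Finset.sum_congr rfl
        intro l hl
        have hl' := Finset.mem_range.mp hl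
        have h2 : i + 1 - 1 - l = (i - 1 - l) + 1 := by omega
        rw [h2, pow_succ]
        ring
      · have h2 : i + 1 - 1 - i = 0 := by omega
        rw [h2, pow_zero, mul_one]
    rw [h1, pow_succ]
    have h3 : (0 : ℝ) < 400 ^ i := by positivity
    nlinarith

lemma geo2 (n : ℕ) : ∑ l ∈ range n, (400 : ℝ) ^ l ≤ 400 ^ n / 399 := by
  induction n with
  | zero => simp
  | succ n ih =>
    rw [Finset.sum_range_succ, pow_succ]
    have h3 : (0 : ℝ) < 400 ^ n := by positivity
    linarith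

lemma cost_sum (H : ℕ) {B : ℝ} (hB : 0 < B) (hBH : 50 * B ≤ 400 ^ H) (K N : ℕ) :
    ∑ l ∈ (Icc 1 (N + 1)).erase (K + 1), (400 : ℝ) ^ l * cl H B K l
      ≤ 45 / 10000 * 400 ^ (K + 1) := by
  have hsub : ∀ f : ℕ → ℝ, (∀ l, 0 ≤ f l) → ∀ (p : ℕ → Prop) [DecidablePred p], ∀ T : Finset ℕ,
      (∀ l, p l → l ∈ T) →
      ∑ l ∈ (Icc 1 (N + 1)).erase (K + 1), (400 : ℝ) ^ l * (if p l then f l else 0)
        ≤ ∑ l ∈ T, (400 : ℝ) ^ l * f l := by
    intro f hf p _ T hT
    have h1 : ∑ l ∈ (Icc 1 (N + 1)).erase (K + 1), (400 : ℝ) ^ l * (if p l then f l else 0)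
        = ∑ l ∈ ((Icc 1 (N + 1)).erase (K + 1)).filter p, (400 : ℝ) ^ l * f l := by
      rw [Finset.sum_filter]
      apply Finset.sum_congr rfl
      intro l _
      by_cases h : p l
      · rw [if_pos h, if_pos h]
      · rw [if_neg h, if_neg h, mul_zero]
    rw [h1]
    apply Finset.sum_le_sum_of_subset_of_nonneg
    · intro l hl
      exact hT l (Finset.mem_filter.mp hl).2
    · intro l _ _
      have := hf l
      positivity
  have hlog0 : 0 ≤ Real.log 4 := Real.log_nonneg (by norm_num)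
  have hlog4 : Real.log 4 ≤ 2 := by
    have h1 : Real.log 4 = 2 * Real.log 2 := by
      rw [show (4 : ℝ) = 2 ^ 2 by norm_num, Real.log_pow]
      norm_num
    have h2 := Real.log_two_lt_d9
    linarith
  have e1 := hsub (fun l => 3 / 4 * (1 / 4) ^ (K - l)) (fun l => by positivity) (fun l => l ≤ K)
    (range (K + 1)) (fun l hl => Finset.mem_range.mpr (by omega))
  have e2 := hsub (fun _ => 1 / 160000) (fun l => by positivity) (fun l => l = K + 2)
    {K + 2} (fun l hl => Finset.mem_singleton.mpr hl)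
  have e3 := hsub (fun _ => B * Real.log 4) (fun l => by positivity) (fun l => l + H ≤ K)
    (range (K + 1 - H)) (fun l hl => Finset.mem_range.mpr (by omega))
  have hsplit : ∑ l ∈ (Icc 1 (N + 1)).erase (K + 1), (400 : ℝ) ^ l * cl H B K l
      = ∑ l ∈ (Icc 1 (N + 1)).erase (K + 1),
          (400 : ℝ) ^ l * (if l ≤ K then 3 / 4 * (1 / 4) ^ (K - l) else 0)
        + ∑ l ∈ (Icc 1 (N + 1)).erase (K + 1), (400 : ℝ) ^ l * (if l = K + 2 then 1 / 160000 else 0)
        + ∑ l ∈ (Icc 1 (N + 1)).erase (K + 1),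
          (400 : ℝ) ^ l * (if l + H ≤ K then B * Real.log 4 else 0) := by
    rw [← Finset.sum_add_distrib, ← Finset.sum_add_distrib]
    apply Finset.sum_congr rfl
    intro l _
    unfold cl cz
    ring
  rw [hsplit]
  have f1 : ∑ l ∈ range (K + 1), (400 : ℝ) ^ l * (3 / 4 * (1 / 4) ^ (K - l))
      ≤ 3 / 1599 * 400 ^ (K + 1) := by
    have h1 : ∑ l ∈ range (K + 1), (400 : ℝ) ^ l * (3 / 4 * (1 / 4) ^ (K - l))
        = 3 / 4 * ∑ l ∈ range (K + 1), (400 : ℝ) ^ l * (1 / 4) ^ (K + 1 - 1 - l) := by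
      rw [Finset.mul_sum]
      apply Finset.sum_congr rfl
      intro l _
      have h2 : K + 1 - 1 - l = K - l := by omega
      rw [h2]
      ring
    rw [h1]
    have := geo1 (K + 1)
    linarith
  have f2 : ∑ l ∈ ({K + 2} : Finset ℕ), (400 : ℝ) ^ l * (1 / 160000)
      = 1 / 400 * 400 ^ (K + 1) := by
    rw [Finset.sum_singleton, pow_succ]
    ring
  have f3 : ∑ l ∈ range (K + 1 - H), (400 : ℝ) ^ l * (B * Real.log 4)
      ≤ 1 / 9975 * 400 ^ (K + 1) := by
    rw [← Finset.sum_mul]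
    have h1 := geo2 (K + 1 - H)
    have h2 : (∑ l ∈ range (K + 1 - H), (400 : ℝ) ^ l) * (B * Real.log 4)
        ≤ (400 ^ (K + 1 - H) / 399) * (B * 2) := by
      apply mul_le_mul h1 _ (by positivity) (by positivity)
      exact mul_le_mul_of_nonneg_left hlog4 hB.le
    by_cases hH : H ≤ K + 1
    · have h3 : (400 : ℝ) ^ (K + 1) = 400 ^ (K + 1 - H) * 400 ^ H := by
        rw [← pow_add]
        congr 1
        omega
      have h4 : (400 : ℝ) ^ (K + 1 - H) * (50 * B) ≤ 400 ^ (K + 1) := by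
        rw [h3]
        exact mul_le_mul_of_nonneg_left hBH (by positivity)
      linarith
    · have h3 : K + 1 - H = 0 := by omega
      rw [h3, Finset.range_zero, Finset.sum_empty, zero_mul]
      positivity
  have h400 : (0 : ℝ) < 400 ^ (K + 1) := by positivity
  linarith

/-! ## lower bound -/

lemma sum_nn_le (S : κ → Finset ι) {t : ℕ} (hdeg : ∀ v, #(univ.filter (fun j => v ∈ S j)) ≤ t)
    (k : ι → ℕ) (l : ℕ) :
    ∑ j, (nn S k l j : ℝ) ≤ t * (#(univ.filter (fun v => l ≤ k v)) : ℝ) := by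
  have h1 : ∑ j, nn S k l j = ∑ v ∈ univ.filter (fun v => l ≤ k v),
      #(univ.filter (fun j => v ∈ S j)) := by
    unfold nn
    have h2 : ∀ j, #((S j).filter (fun v => l ≤ k v))
        = ∑ v ∈ univ.filter (fun v => l ≤ k v), if v ∈ S j then 1 else 0 := by
      intro j
      rw [← Finset.card_filter]
      congr 1
      ext v
      rw [mem_filter, mem_filter, mem_filter]
      simp [and_comm]
    rw [Finset.sum_congr rfl (fun j _ => h2 j), Finset.sum_comm]
    apply Finset.sum_congr rfl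
    intro v _
    rw [← Finset.card_filter]
  have h3 : ∑ v ∈ univ.filter (fun v => l ≤ k v), #(univ.filter (fun j => v ∈ S j))
      ≤ #(univ.filter (fun v => l ≤ k v)) * t := by
    refine (Finset.sum_le_card_nsmul _ _ t (fun v _ => hdeg v)).trans (le_of_eq ?_)
    rw [smul_eq_mul]
  have h4 : ∑ j, nn S k l j ≤ #(univ.filter (fun v => l ≤ k v)) * t := by
    rw [h1]
    exact h3
  have h5 : (∑ j, (nn S k l j : ℝ)) ≤ (#(univ.filter (fun v => l ≤ k v)) : ℝ) * t := by
    exact_mod_cast h4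
  linarith

lemma shift_sum (a : ℕ → ℝ) (ha : ∀ l, 0 ≤ a l) (N g : ℕ) (h0 : ∀ l, N < l → a l = 0) :
    ∑ l ∈ Icc 1 (N + 1), a (l + g) ≤ ∑ l ∈ Icc 1 (N + 1), a l := by
  have h1 : ∑ l ∈ Icc 1 (N + 1), a (l + g)
      = ∑ l ∈ (Icc 1 (N + 1)).filter (fun l => l + g ≤ N), a (l + g) := by
    rw [Finset.sum_filter]
    apply Finset.sum_congr rfl
    intro l _
    by_cases h : l + g ≤ N
    · rw [if_pos h]
    · rw [if_neg h]
      exact h0 _ (by omega)
  have h2 : ∑ l ∈ (Icc 1 (N + 1)).filter (fun l => l + g ≤ N), a (l + g)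
      = ∑ l ∈ ((Icc 1 (N + 1)).filter (fun l => l + g ≤ N)).image (fun l => l + g), a l := by
    rw [Finset.sum_image]
    intro x _ y _ hxy
    have : x + g = y + g := hxy
    omega
  rw [h1, h2]
  apply Finset.sum_le_sum_of_subset_of_nonneg
  · intro l hl
    obtain ⟨x, hx, hxl⟩ := Finset.mem_image.mp hl
    obtain ⟨hx1, hx2⟩ := Finset.mem_filter.mp hx
    rw [Finset.mem_Icc] at hx1 ⊢
    omega
  · intro l _ _
    exact ha l

/-- lower bound of the functional -/
lemma WW_low (S : κ → Finset ι) {t : ℕ} (ht : 1 ≤ t)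
    (hdeg : ∀ v, #(univ.filter (fun j => v ∈ S j)) ≤ t) (H g : ℕ) {B : ℝ} (m : ℕ)
    (hg : 32 * t * m ^ 2 ≤ 400 ^ g) (N : ℕ) (k : ι → ℕ) (hk : ∀ v, k v ≤ N)
    (hlow : ∀ i, 1 ≤ i → -(1 / 1600) * (#(univ.filter (fun v => i ≤ k v)) : ℝ)
      ≤ Real.log (Zn S (LL S t m k i) (bb k i)) - B * LD S (RR S t B m k i) (ww H k i)) :
    1 / 640 * ∑ l ∈ Icc 1 (N + 1), (400 : ℝ) ^ l * (#(univ.filter (fun v => l ≤ k v)) : ℝ)
      ≤ WW S t H g B m N k := by
  set a : ℕ → ℝ := fun l => (400 : ℝ) ^ l * (#(univ.filter (fun v => l ≤ k v)) : ℝ) with hadef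
  have ha : ∀ l, 0 ≤ a l := fun l => by positivity
  have ha0 : ∀ l, N < l → a l = 0 := by
    intro l hl
    have h1 : univ.filter (fun v => l ≤ k v) = ∅ := by
      apply Finset.filter_eq_empty_iff.mpr
      intro v _
      have := hk v
      omega
    rw [hadef]
    simp only
    rw [h1, Finset.card_empty]
    push_cast
    ring
  have h400g : (0 : ℝ) < 400 ^ g := by positivity
  have hterm : ∀ l ∈ Icc 1 (N + 1), 3 / 1600 * a l - 1 / 3200 * a (l + g)
      ≤ (400 : ℝ) ^ l * UU S t H g B m k l := by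
    intro l hl
    have hl1 := (Finset.mem_Icc.mp hl).1
    have h1 := hlow l hl1
    have h2 : ∑ j, min (nn S k l j : ℝ) ((m : ℝ) ^ 2 * (nn S k (l + g) j : ℝ))
        ≤ (m : ℝ) ^ 2 * (t * (#(univ.filter (fun v => l + g ≤ k v)) : ℝ)) := by
      refine (Finset.sum_le_sum (fun j _ => min_le_right _ _)).trans ?_
      rw [← Finset.mul_sum]
      exact mul_le_mul_of_nonneg_left (sum_nn_le S hdeg k (l + g)) (by positivity)
    have h3 : (32 : ℝ) * t * m ^ 2 ≤ 400 ^ g := by exact_mod_cast hg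
    set c := (#(univ.filter (fun v => l + g ≤ k v)) : ℝ) with hc
    have hc0 : 0 ≤ c := by positivity
    have h4 : (m : ℝ) ^ 2 * (t * c) ≤ 400 ^ g * c / 32 := by
      have := mul_le_mul_of_nonneg_right h3 hc0
      linarith
    have h5 : (400 : ℝ) ^ l * (3 / 1600 * (#(univ.filter (fun v => l ≤ k v)) : ℝ)
        - 1 / 3200 * (400 ^ g * c)) ≤ (400 : ℝ) ^ l * UU S t H g B m k l := by
      apply mul_le_mul_of_nonneg_left _ (by positivity)
      unfold UU
      linarith
    have h6 : 3 / 1600 * a l - 1 / 3200 * a (l + g)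
        = (400 : ℝ) ^ l * (3 / 1600 * (#(univ.filter (fun v => l ≤ k v)) : ℝ)
          - 1 / 3200 * (400 ^ g * c)) := by
      rw [hadef]
      simp only
      rw [← hc, pow_add]
      ring
    rw [h6]
    exact h5
  have h1 : ∑ l ∈ Icc 1 (N + 1), (3 / 1600 * a l - 1 / 3200 * a (l + g))
      ≤ WW S t H g B m N k := Finset.sum_le_sum hterm
  rw [Finset.sum_sub_distrib, ← Finset.mul_sum, ← Finset.mul_sum] at h1
  have h2 := shift_sum a ha N g ha0
  linarith

/-- the functional at zero -/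
lemma WW_zero (S : κ → Finset ι) {t : ℕ} (ht : 1 ≤ t) (H g : ℕ) {B m : ℝ} (hB : 0 < B)
    (hm : 0 < m) (N : ℕ) :
    WW S t H g B m N (fun _ => 0) = 400 * UU S t H g B m (fun _ => 0) 1 := by
  unfold WW
  rw [Finset.sum_eq_single 1]
  · rw [pow_one]
  · intro l hl hl1
    have hl2 : 2 ≤ l := by
      have := (Finset.mem_Icc.mp hl).1
      omega
    have h1 : bb (fun _ : ι => 0) l = fun _ => 0 := by
      funext v
      show (if l ≤ 0 then (1 / 4 : ℝ) ^ (0 - l) else if 0 + 1 = l then -(1 / 160000) else 0) = 0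
      rw [if_neg (by omega), if_neg (by omega)]
    have h2 : ww H (fun _ : ι => 0) l = fun _ => 0 := by
      funext v
      show (if l ≤ 0 then (1 / 4 : ℝ) ^ (0 - l - H) else 0) = 0
      rw [if_neg (by omega)]
    have h3 : ∀ j, nn S (fun _ : ι => 0) l j = 0 := by
      intro j
      unfold nn
      rw [Finset.card_eq_zero, Finset.filter_eq_empty_iff]
      intro v _
      show ¬ l ≤ 0
      omega
    have h4 : #(univ.filter (fun v : ι => l ≤ (fun _ : ι => 0) v)) = 0 := by
      rw [Finset.card_eq_zero, Finset.filter_eq_empty_iff]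
      intro v _
      show ¬ l ≤ 0
      omega
    have hR := RR_pos S ht hB hm (fun _ : ι => 0) l
    have h5 : LD S (RR S t B m (fun _ : ι => 0) l) (fun _ => 0) = 0 := by
      unfold LD
      have h6 : GM S (RR S t B m (fun _ : ι => 0) l) (fun _ => 0)
          = Matrix.diagonal (RR S t B m (fun _ : ι => 0) l) := by
        ext i j
        unfold GM
        rw [Matrix.diagonal_apply]
        simp
      rw [h6, Matrix.det_diagonal, Real.log_prod (fun j _ => ne_of_gt (hR j)), sub_self]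
    have h6 : Real.log (Zn S (LL S t m (fun _ : ι => 0) l) (fun _ => 0)) = 0 := by
      unfold Zn
      by_cases h7 : ZZ S (LL S t m (fun _ : ι => 0) l) (fun _ => 0) = 0
      · rw [h7]
        simp
      · rw [div_self h7, Real.log_one]
    have h7 : UU S t H g B m (fun _ => 0) l = 0 := by
      have h8 : ∀ j, min (nn S (fun _ : ι => 0) l j : ℝ)
          (m ^ 2 * (nn S (fun _ : ι => 0) (l + g) j : ℝ)) = 0 := by
        intro j
        rw [h3 j]
        push_cast
        exact min_eq_left (by positivity)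
      unfold UU
      rw [h1, h2, h5, h6, h4, Finset.sum_eq_zero (fun j _ => h8 j)]
      push_cast
      ring
    rw [h7, mul_zero]
  · intro h
    exact absurd (Finset.mem_Icc.mpr ⟨le_rfl, by omega⟩) h

theorem st_RANK (hINT : ST_INT) (hZC : ST_ZCOST) (hLD : ST_LD) (hLOW : ST_LEVLOW) : ST_RANK := by
  intro H B hB hBH
  obtain ⟨M1, hM1⟩ := hLOW B hB
  refine ⟨max M1 24000, le_trans (by norm_num) (le_max_right _ _), ?_⟩
  intro ι κ _ _ S t g ht hdeg hg
  set M0 : ℕ := max M1 24000 with hM0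
  have hM0a : M1 ≤ M0 := le_max_left _ _
  have hM0b : 24000 ≤ M0 := le_max_right _ _
  have hB0 : 0 < B := by linarith
  set m : ℕ := M0 * t ^ 2 with hmdef
  have hmcast : ((M0 : ℝ) * (t : ℝ) ^ 2) = (m : ℝ) := by
    rw [hmdef]
    push_cast
    ring
  have ht2 : t ≤ t ^ 2 := by nlinarith
  have hmt : 24000 * t ≤ m := by
    rw [hmdef]
    exact Nat.mul_le_mul hM0b ht2
  have hm : 1 ≤ m := by omega
  have hm0 : (0 : ℝ) < m := by exact_mod_cast hm
  have hg1 : 1 ≤ g := by
    by_contra hcon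
    have h0 : g = 0 := by omega
    rw [h0, pow_zero] at hg
    have h1 : 1 ≤ t * m ^ 2 := Nat.mul_pos ht (pow_pos hm 2)
    have h2 : 32 * t * m ^ 2 = 32 * (t * m ^ 2) := by ring
    omega
  rw [hmcast]
  have hlow : ∀ (k : ι → ℕ) (i : ℕ), 1 ≤ i →
      -(1 / 1600) * (#(univ.filter (fun v => i ≤ k v)) : ℝ)
        ≤ Real.log (Zn S (LL S t m k i) (bb k i)) - B * LD S (RR S t B m k i) (ww H k i) := by
    intro k i hi
    have := hM1 M0 hM0a ι κ S t H k i ht hdeg hi
    rw [hmcast] at this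
    exact this
  -- choice of the cap
  obtain ⟨N, hN⟩ := pow_unbounded_of_one_lt
    (640 * (400 * UU S t H g B m (fun _ : ι => 0) 1)) (by norm_num : (1 : ℝ) < 400)
  set N' := N + 1 with hN'
  have hNN : 640 * (400 * UU S t H g B m (fun _ : ι => 0) 1) < (400 : ℝ) ^ N' := by
    refine hN.trans ?_
    rw [hN', pow_succ]
    have : (0 : ℝ) < 400 ^ N := by positivity
    linarith
  -- minimiser
  have hne : (Fintype.piFinset (fun _ : ι => range (N' + 1))).Nonempty :=
    ⟨fun _ => 0, by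
      rw [Fintype.mem_piFinset]
      intro v
      exact Finset.mem_range.mpr (by omega)⟩
  obtain ⟨k, hk, hmin⟩ := Finset.exists_min_image _ (fun k => WW S t H g B m N' k) hne
  have hkN : ∀ v, k v ≤ N' := by
    intro v
    have := Finset.mem_range.mp (Fintype.mem_piFinset.mp hk v)
    omega
  have hk0 : WW S t H g B m N' k ≤ 400 * UU S t H g B m (fun _ : ι => 0) 1 := by
    rw [← WW_zero S ht H g hB0 hm0 N']
    apply hmin
    rw [Fintype.mem_piFinset]
    intro v
    exact Finset.mem_range.mpr (by omega)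
  have hkN2 : ∀ v, k v < N' := by
    intro v
    by_contra hcon
    have hv : k v = N' := le_antisymm (hkN v) (not_lt.mp hcon)
    have h1 := WW_low S ht hdeg H g m hg N' k hkN (fun i hi => hlow k i hi)
    have h2 : (400 : ℝ) ^ N' * (#(univ.filter (fun v => N' ≤ k v)) : ℝ)
        ≤ ∑ l ∈ Icc 1 (N' + 1), (400 : ℝ) ^ l * (#(univ.filter (fun v => l ≤ k v)) : ℝ) := by
      apply Finset.single_le_sum
        (f := fun l => (400 : ℝ) ^ l * (#(univ.filter (fun v => l ≤ k v)) : ℝ))
      · intro l _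
        positivity
      · rw [Finset.mem_Icc]
        omega
    have h3 : (1 : ℝ) ≤ (#(univ.filter (fun v => N' ≤ k v)) : ℝ) := by
      have : 0 < #(univ.filter (fun v => N' ≤ k v)) :=
        Finset.card_pos.mpr ⟨v, Finset.mem_filter.mpr ⟨Finset.mem_univ v, hv.ge⟩⟩
      exact_mod_cast this
    have h4 : (0 : ℝ) < 400 ^ N' := by positivity
    nlinarith
  refine ⟨k, ?_⟩
  intro i u hiu
  have hi : i = k u + 1 := hiu.symm
  rw [hi]
  -- the raise
  have hup : WW S t H g B m N' k ≤ WW S t H g B m N' (up k u) := by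
    apply hmin
    rw [Fintype.mem_piFinset]
    intro v
    rw [Finset.mem_range]
    by_cases hv : v = u
    · rw [hv, up_self]
      have := hkN2 u
      omega
    · rw [up_ne k hv]
      have := hkN v
      omega
  have hmem : k u + 1 ∈ Icc 1 (N' + 1) := by
    rw [Finset.mem_Icc]
    have := hkN2 u
    omega
  have hdiff : -(45 / 10000) ≤ UU S t H g B m (up k u) (k u + 1) - UU S t H g B m k (k u + 1) := by
    unfold WW at hup
    rw [← Finset.add_sum_erase _ _ hmem,
      ← Finset.add_sum_erase _ (fun l => (400 : ℝ) ^ l * UU S t H g B m (up k u) l) hmem] at hup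
    have h1 : ∑ l ∈ (Icc 1 (N' + 1)).erase (k u + 1), (400 : ℝ) ^ l * UU S t H g B m (up k u) l
        ≤ ∑ l ∈ (Icc 1 (N' + 1)).erase (k u + 1), (400 : ℝ) ^ l * UU S t H g B m k l
          + ∑ l ∈ (Icc 1 (N' + 1)).erase (k u + 1), (400 : ℝ) ^ l * cl H B (k u) l := by
      rw [← Finset.sum_add_distrib]
      apply Finset.sum_le_sum
      intro l hl
      rw [← mul_add]
      apply mul_le_mul_of_nonneg_left _ (by positivity)
      exact UU_ne hINT hZC hLD S ht H g hB0 hm0 k u l (Finset.mem_erase.mp hl).1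
    have h2 := cost_sum H hB0 hBH (k u) N'
    have h3 : (0 : ℝ) < 400 ^ (k u + 1) := by positivity
    have h4 : (400 : ℝ) ^ (k u + 1) * (-(45 / 10000)) ≤ (400 : ℝ) ^ (k u + 1)
        * (UU S t H g B m (up k u) (k u + 1) - UU S t H g B m k (k u + 1)) := by
      rw [mul_sub]
      linarith
    exact le_of_mul_le_mul_left h4 h3
  obtain ⟨a, b, c, h1, ha0, hb0, hc0, ha, hb, hc⟩ := UU_self hINT hZC hLD S ht hdeg H g hg1 hB0 m
    hm hmt k u
  have hsum : a + b + c ≤ 75 / 10000 := by linarith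
  refine ⟨?_, ?_, ?_⟩
  · by_contra hcon
    have := ha hcon
    linarith
  · by_contra hcon
    rw [not_le] at hcon
    set x := lev S (RR S t B m k (k u + 1)) (ww H k (k u + 1)) u with hx
    have hx0 : 0 < 8 / 1000 / B := by positivity
    have h2 : 1 - (1 + x)⁻¹ ≤ Real.log (1 + x) :=
      Real.one_sub_inv_le_log_of_pos (by linarith)
    have h3 : 8 / 1000 < x * B := by
      rw [div_lt_iff₀ hB0] at hcon
      exact hcon
    have hxpos : 0 < x := lt_trans hx0 hcon
    have h4 : 1 - (1 + x)⁻¹ = x / (1 + x) := by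
      field_simp
      ring
    have h5 : 76 / 10000 < B * (x / (1 + x)) := by
      have h6 : B * (x / (1 + x)) = (B * x) / (1 + x) := by ring
      rw [h6, lt_div_iff₀ (by linarith)]
      -- 76/10000 (1+x) < B x
      nlinarith
    have h6 : B * (x / (1 + x)) ≤ b := by
      rw [hb, ← h4]
      exact mul_le_mul_of_nonneg_left h2 hB0.le
    linarith
  · intro j hj
    by_contra hcon
    rw [not_le] at hcon
    have := hc ⟨j, hj, hcon⟩
    linarith

end

end Pool.Agent.Helper55.NF
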